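import Mathlib

section

namespace Pool.Agent.MP_22fc46_co

open Finset

/-- The field with four elements, as a quadratic algebra over `ZMod 2`. -/
abbrev F4 : Type := QuadraticAlgebra (ZMod 2) 1 1

instance instFintypeF4 : Fintype F4 :=
  Fintype.ofEquiv _ (QuadraticAlgebra.equivProd (1 : ZMod 2) 1).symm

theorem f4_add_self : ∀ a : F4, a + a = 0 := by decide

theorem f4_mul_ne : ∀ a b : F4, a * b = 0 → a = 0 ∨ b = 0 := by decide

instance instNZDF4 : NoZeroDivisors F4 := ⟨fun {a b} h => f4_mul_ne a b h⟩

instance instDomF4 : IsDomain F4 := NoZeroDivisors.to_isDomain F4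

theorem f4_real : ∀ d : F4, star d = d → d ≠ 0 → d = 1 := by decide

theorem f4_eq_of_add : ∀ a b : F4, a + b = 0 → a = b := by decide

/-- `0` or `1` in `F4`. -/
def bt (b : Bool) : F4 := if b then 1 else 0

theorem star_bt : ∀ b : Bool, star (bt b) = bt b := by decide

theorem f4_trace : ∀ (b : Bool) (z : F4),
    star z * (bt b * z) + z * star (bt b * z) = 0 := by decide

section Herm

variable {I : Type*} [Fintype I] [DecidableEq I]

theorem ker_count (A : Matrix I I F4) (hA : ∀ i j, star (A i j) = A j i) :
    ∑ _z ∈ (univ : Finset (I → F4)).filter (fun z => A.mulVec z = 0), (1 : F4) = A.det := by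
  by_cases hd : A.det = 0
  · obtain ⟨z0, hz0, hk⟩ := Matrix.exists_mulVec_eq_zero_iff.mpr hd
    rw [hd]
    refine Finset.sum_involution (fun z _ => z + z0) ?_ ?_ ?_ ?_
    · intro z _
      exact f4_add_self 1
    · intro z _ _ h
      apply hz0
      simpa using h
    · intro z hz
      simp only [mem_filter, mem_univ, true_and] at hz ⊢
      rw [Matrix.mulVec_add, hz, hk, add_zero]
    · intro z _
      funext i
      simp only [Pi.add_apply]
      rw [add_assoc, f4_add_self, add_zero]
  · have h1 : A.det = 1 := by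
      apply f4_real _ _ hd
      have h2 : A.conjTranspose = A := by
        ext i j
        · rw [Matrix.conjTranspose_apply, hA]
        · rw [Matrix.conjTranspose_apply, hA]
      rw [← Matrix.det_conjTranspose, h2]
    have h3 : (univ : Finset (I → F4)).filter (fun z => A.mulVec z = 0) = {0} := by
      ext z
      simp only [mem_filter, mem_univ, true_and, mem_singleton]
      constructor
      · intro hz
        by_contra hne
        exact hd (Matrix.exists_mulVec_eq_zero_iff.mp ⟨z, hne, hz⟩)
      · rintro rfl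
        exact Matrix.mulVec_zero A
    rw [h3, h1]
    simp

theorem det_sum (c : Matrix I I F4) :
    ∑ t : I → Bool, (c + Matrix.diagonal (fun i => bt (t i))).det = 1 := by
  have h := (Matrix.detRowAlternating (n := I) (R := F4)).toMultilinearMap.map_sum
    (fun (i : I) (b : Bool) => (fun j => c i j + (if i = j then bt b else 0) : I → F4))
  have h1 : (fun i : I => ∑ b : Bool,
      (fun j => c i j + (if i = j then bt b else 0) : I → F4)) = (1 : Matrix I I F4) := by
    funext i j
    rw [Finset.sum_apply, Fintype.sum_bool, Matrix.one_apply]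
    have := f4_add_self (c i j)
    by_cases hij : i = j
    · simp only [hij, if_true, bt] at this ⊢
      simp only [Bool.false_eq_true, if_false]
      linear_combination this
    · simp only [hij, if_false]
      linear_combination this
  rw [h1] at h
  have h2 : (Matrix.detRowAlternating (n := I) (R := F4)).toMultilinearMap
      (1 : Matrix I I F4) = 1 := Matrix.det_one
  rw [h2] at h
  rw [h]
  refine Finset.sum_congr rfl fun t _ => ?_
  have h3 : (c + Matrix.diagonal (fun i => bt (t i))) =
      (fun i j => c i j + (if i = j then bt (t i) else 0) : Matrix I I F4) := by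
    funext i j
    rw [Matrix.add_apply, Matrix.diagonal_apply]
  rw [h3]
  rfl

/-- A Hermitian matrix over `F4` has, after adding a `0/1` diagonal, a kernel vector of
full support. -/
theorem herm_parity (c : Matrix I I F4) (hc : ∀ i j, star (c i j) = c j i) :
    ∃ (t : I → Bool) (z : I → F4), (∀ i, z i ≠ 0) ∧ ∀ i, ∑ j, c i j * z j = bt (t i) * z i := by
  classical
  by_contra hcon
  have key : ∀ (t : I → Bool) (z : I → F4),
      (c + Matrix.diagonal (fun i => bt (t i))).mulVec z = 0 ↔
        ∀ i, ∑ j, c i j * z j + bt (t i) * z i = 0 := by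
    intro t z
    rw [Matrix.add_mulVec, funext_iff]
    refine forall_congr' fun i => ?_
    rw [Pi.add_apply, Matrix.mulVec_diagonal]
    rfl
  have hz : ∀ p ∈ (univ : Finset ((I → Bool) × (I → F4))).filter
      (fun p => (c + Matrix.diagonal (fun i => bt (p.1 i))).mulVec p.2 = 0), ∃ i, p.2 i = 0 := by
    intro p hp
    by_contra hn
    push Not at hn
    simp only [mem_filter, mem_univ, true_and] at hp
    exact hcon ⟨p.1, p.2, hn, fun i => f4_eq_of_add _ _ ((key _ _).mp hp i)⟩
  have h0 : ∑ _p ∈ (univ : Finset ((I → Bool) × (I → F4))).filter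
      (fun p => (c + Matrix.diagonal (fun i => bt (p.1 i))).mulVec p.2 = 0), (1 : F4) = 0 := by
    refine Finset.sum_involution
      (fun p hp => (Function.update p.1 (hz p hp).choose (!(p.1 (hz p hp).choose)), p.2))
      ?_ ?_ ?_ ?_
    · intro z _
      exact f4_add_self 1
    · intro p hp _ h
      have h1 := congrFun (congrArg Prod.fst h) (hz p hp).choose
      simp at h1
    · intro p hp
      have hs := (hz p hp).choose_spec
      have hp' := hp
      simp only [mem_filter, mem_univ, true_and] at hp' ⊢
      rw [key] at hp' ⊢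
      intro i
      by_cases hi : i = (hz p hp).choose
      · have h1 := hp' i
        rw [hi] at h1 ⊢
        rw [hs, mul_zero] at h1 ⊢
        exact h1
      · rw [Function.update_of_ne hi]
        exact hp' i
    · intro p hp
      ext i
      · simp only [Function.update_idem, Function.update_self, Bool.not_not,
          Function.update_eq_self]
      · rfl
      · rfl
  have h1 : ∑ _p ∈ (univ : Finset ((I → Bool) × (I → F4))).filter
      (fun p => (c + Matrix.diagonal (fun i => bt (p.1 i))).mulVec p.2 = 0), (1 : F4) =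
      ∑ t : I → Bool, (c + Matrix.diagonal (fun i => bt (t i))).det := by
    rw [Finset.sum_filter, Fintype.sum_prod_type]
    refine Finset.sum_congr rfl fun t _ => ?_
    rw [← ker_count, Finset.sum_filter]
    intro i j
    rw [Matrix.add_apply, Matrix.add_apply, star_add, hc, Matrix.diagonal_apply,
      Matrix.diagonal_apply]
    by_cases hij : i = j
    · subst hij
      simp only [if_true, star_bt]
    · simp only [hij, Ne.symm hij, if_false, star_zero]
  rw [h1, det_sum] at h0
  exact one_ne_zero h0

theorem form_parity (M : I → I → I → F4)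
    (h1 : ∀ k i j, k ≠ i → k ≠ j → M k i j = 0)
    (h2 : ∀ i j, ∑ k, M k i j = 0)
    (h3 : ∀ k i j, star (M k i j) = M k j i) :
    ∃ z : I → F4, (∀ i, z i ≠ 0) ∧ ∀ k, ∑ i, ∑ j, z i * star (z j) * M k i j = 0 := by
  have hd : ∀ k, M k k k = 0 := by
    intro k
    rw [← h2 k k]
    symm
    exact Finset.sum_eq_single k (fun l _ hl => h1 l k k hl hl) (by simp)
  have hc : ∀ k i, star (M k i k) = M i k i := by
    intro k i
    rw [h3]
    by_cases hki : k = i
    · subst hki
      rfl
    · apply f4_eq_of_add
      rw [← h2 k i]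
      symm
      refine Finset.sum_eq_add_of_mem k i (mem_univ _) (mem_univ _) hki ?_
      intro l _ hl
      exact h1 l k i hl.1 hl.2
  obtain ⟨t, z, hz, hzz⟩ := herm_parity (fun k i => M k i k) hc
  refine ⟨z, hz, fun k => ?_⟩
  have hM : ∀ i j, z i * star (z j) * M k i j =
      (if j = k then star (z k) * (M k i k * z i) else 0) +
        (if i = k then z k * star (M k j k * z j) else 0) := by
    intro i j
    by_cases hj : j = k
    · by_cases hi : i = k
      · subst hj
        subst hi
        simp [hd]
      · subst hj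
        simp only [if_true, hi, if_false]
        ring
    · by_cases hi : i = k
      · subst hi
        simp only [hj, if_true, if_false, star_mul, h3]
        ring
      · simp only [hj, hi, if_false]
        rw [h1 k i j (Ne.symm hi) (Ne.symm hj)]
        ring
  have e1 : ∑ i, ∑ j, (if j = k then star (z k) * (M k i k * z i) else 0) =
      star (z k) * ∑ i, M k i k * z i := by
    simp only [Finset.sum_ite_eq', mem_univ, if_true]
    rw [Finset.mul_sum]
  have e2 : ∑ i, ∑ j, (if i = k then z k * star (M k j k * z j) else 0) =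
      z k * star (∑ j, M k j k * z j) := by
    rw [Finset.sum_comm]
    simp only [Finset.sum_ite_eq', mem_univ, if_true]
    rw [star_sum, Finset.mul_sum]
  simp only [hM, Finset.sum_add_distrib]
  rw [e1, e2]
  rw [hzz k]
  exact f4_trace _ _

end Herm

end Pool.Agent.MP_22fc46_co

end

section

namespace Pool.Agent.MP_22fc46_co

open Finset

section Bdry

variable {V : Type*} [Fintype V] {A : Type*} [AddCommGroup A]

/-- `d` is the boundary of a symmetric function supported on the edges of `H`. -/
def IsBd (H : SimpleGraph V) (d : V → A) : Prop :=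
  ∃ y : V → V → A, (∀ u v, y u v = y v u) ∧ (∀ u v, ¬ H.Adj u v → y u v = 0) ∧
    ∀ u, ∑ v, y u v = d u

theorem IsBd.zero (H : SimpleGraph V) : IsBd H (0 : V → A) :=
  ⟨fun _ _ => 0, fun _ _ => rfl, fun _ _ _ => rfl, fun _ => by simp⟩

theorem IsBd.add {H : SimpleGraph V} {d e : V → A} (hd : IsBd H d) (he : IsBd H e) :
    IsBd H (d + e) := by
  obtain ⟨y, h1, h2, h3⟩ := hd
  obtain ⟨x, g1, g2, g3⟩ := he
  refine ⟨fun u v => y u v + x u v, fun u v => by simp only [h1 u v, g1 u v], fun u v h => ?_,
    fun u => ?_⟩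
  · simp only [h2 u v h, g2 u v h, add_zero]
  · rw [Finset.sum_add_distrib, h3, g3, Pi.add_apply]

theorem IsBd.sum {H : SimpleGraph V} {J : Type*} (s : Finset J) (d : J → V → A)
    (hd : ∀ j ∈ s, IsBd H (d j)) : IsBd H (∑ j ∈ s, d j) :=
  Finset.sum_induction d (IsBd H) (fun _ _ => IsBd.add) (IsBd.zero H) hd

variable [DecidableEq V]

theorem IsBd.edge {H : SimpleGraph V} {u v : V} (h : H.Adj u v) (a : A) :
    IsBd H (Pi.single u a + Pi.single v a : V → A) := by
  have hne : u ≠ v := h.ne
  refine ⟨fun p q => (if p = u ∧ q = v then a else 0) + (if p = v ∧ q = u then a else 0),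
    fun p q => ?_, fun p q hpq => ?_, fun p => ?_⟩
  · simp only [and_comm (a := p = u), and_comm (a := p = v)]
    rw [add_comm]
  · have h1 : ¬ (p = u ∧ q = v) := by
      rintro ⟨rfl, rfl⟩
      exact hpq h
    have h2 : ¬ (p = v ∧ q = u) := by
      rintro ⟨rfl, rfl⟩
      exact hpq h.symm
    simp only [h1, h2, if_false, add_zero]
  · rw [Finset.sum_add_distrib, Pi.add_apply, Pi.single_apply, Pi.single_apply]
    congr 1
    · by_cases hp : p = u <;> simp [hp]
    · by_cases hp : p = v <;> simp [hp]

theorem IsBd.reach (h2 : ∀ a : A, a + a = 0) {H : SimpleGraph V} {u v : V}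
    (h : H.Reachable u v) (a : A) : IsBd H (Pi.single u a + Pi.single v a : V → A) := by
  obtain ⟨w⟩ := h
  induction w with
  | nil =>
    rename_i x
    have : (Pi.single x a + Pi.single x a : V → A) = 0 := by
      funext p
      exact h2 _
    rw [this]
    exact IsBd.zero H
  | cons hadj _ ih =>
    rename_i x y z _
    have h3 := (IsBd.edge hadj a).add ih
    have : (Pi.single x a + Pi.single y a + (Pi.single y a + Pi.single z a) : V → A) =
        Pi.single x a + Pi.single z a := by
      funext p
      simp only [Pi.add_apply]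
      have := h2 ((Pi.single y a : V → A) p)
      rw [add_assoc, ← add_assoc ((Pi.single y a : V → A) p), this, zero_add]
    rwa [this] at h3

open Classical in
theorem isBd_of_comp (h2 : ∀ a : A, a + a = 0) (H : SimpleGraph V) (d : V → A)
    (hd : ∀ Q : H.ConnectedComponent,
      ∑ u, (if H.connectedComponentMk u = Q then d u else 0) = 0) : IsBd H d := by
  let rep : V → V := fun u => (H.connectedComponentMk u).out
  have hrep : ∀ u, H.connectedComponentMk (rep u) = H.connectedComponentMk u :=
    fun u => Quot.out_eq _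
  have h1 : IsBd H (∑ u, (Pi.single u (d u) + Pi.single (rep u) (d u) : V → A)) :=
    IsBd.sum _ _ fun u _ =>
      IsBd.reach h2 (SimpleGraph.ConnectedComponent.exact (hrep u).symm) (d u)
  have h3 : (∑ u, (Pi.single u (d u) + Pi.single (rep u) (d u) : V → A)) = d := by
    rw [Finset.sum_add_distrib, Finset.univ_sum_single]
    have : (∑ u, (Pi.single (rep u) (d u) : V → A)) = 0 := by
      funext p
      rw [Finset.sum_apply, Pi.zero_apply]
      by_cases hp : rep p = p
      · rw [← hd (H.connectedComponentMk p)]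
        refine Finset.sum_congr rfl fun u _ => ?_
        rw [Pi.single_apply]
        have : p = rep u ↔ H.connectedComponentMk u = H.connectedComponentMk p := by
          constructor
          · intro h
            rw [h, hrep]
          · intro h
            rw [← hp]
            simp only [rep, h]
        simp only [this]
      · refine Finset.sum_eq_zero fun u _ => ?_
        rw [Pi.single_apply, if_neg]
        intro h
        apply hp
        have : rep p = rep u := by
          simp only [rep]
          rw [h, hrep]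
        rw [this, ← h]
    rw [this, add_zero]
  rwa [h3] at h1

omit [DecidableEq V] in
theorem sum_symm_zero (h2 : ∀ a : A, a + a = 0) (h : V → V → A) (hs : ∀ u v, h u v = h v u)
    (hd : ∀ u, h u u = 0) : ∑ u, ∑ v, h u v = 0 := by
  rw [← Fintype.sum_prod_type' (f := h)]
  refine Finset.sum_involution (fun p _ => p.swap) ?_ ?_ ?_ ?_
  · intro p _
    simp only [Prod.fst_swap, Prod.snd_swap]
    rw [hs p.2 p.1]
    exact h2 _
  · intro p _ hp he
    apply hp
    have : p.2 = p.1 := congrArg Prod.fst he
    rw [this]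
    exact hd _
  · intro p _
    exact mem_univ _
  · intro p _
    rfl

end Bdry

end Pool.Agent.MP_22fc46_co

end

section

namespace Pool.Agent.MP_22fc46_co

open Finset

/-- The norm of `F4` over `ZMod 2`. -/
def nrm (x : F4) : ZMod 2 := (x * star x).re

theorem z2_add_self : ∀ a : ZMod 2, a + a = 0 := by decide

theorem count_one : ∀ x : F4,
    ((univ : Finset F4).filter
      (fun s => (0 + 1 + nrm x + nrm s * 1 + (star s * x).im : ZMod 2) = 1)).card = 1 := by
  decide

theorem count_two : ∀ (x : F4) (y : ZMod 2), x ≠ 0 →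
    ((univ : Finset F4).filter
      (fun s => (y + 0 + nrm 0 + nrm s * 0 + (star s * x).im : ZMod 2) = 1)).card = 2 := by
  decide

theorem count_zero :
    ((univ : Finset F4).filter
      (fun s => (0 + 0 + nrm 0 + nrm s * 0 + (star s * 0).im : ZMod 2) = 1)).card = 0 := by
  decide

/-- real part as an additive map -/
def reH : F4 →+ ZMod 2 where
  toFun x := x.re
  map_zero' := rfl
  map_add' _ _ := rfl

/-- imaginary part as an additive map -/
def imH : F4 →+ ZMod 2 where
  toFun x := x.im
  map_zero' := rfl
  map_add' _ _ := rfl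

variable {V : Type*} [Fintype V]

/-- The vertex `u` has no neighbour or exactly two neighbours. -/
def Deg02 (W : SimpleGraph V) (u : V) : Prop :=
  (∀ v, ¬ W.Adj u v) ∨ ∃ a b, a ≠ b ∧ ∀ v, W.Adj u v ↔ v = a ∨ v = b

theorem two_cancel {W : SimpleGraph V} {u : V} (h : Deg02 W u) (f g : V → F4)
    (hf : ∀ v, ¬ W.Adj u v → f v = 0) (hg : ∀ v, ¬ W.Adj u v → g v = 0)
    (sf : ∑ v, f v = 0) (sg : ∑ v, g v = 0) : ∑ v, f v * star (g v) = 0 := by
  rcases h with h | ⟨a, b, hab, h⟩
  · exact Finset.sum_eq_zero fun v _ => by rw [hf v (h v), zero_mul]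
  · have hn : ∀ v, v ≠ a ∧ v ≠ b → ¬ W.Adj u v := by
      intro v hv hadj
      rcases (h v).mp hadj with h1 | h1
      · exact hv.1 h1
      · exact hv.2 h1
    rw [Fintype.sum_eq_add a b hab (fun v hv => hf v (hn v hv))] at sf
    rw [Fintype.sum_eq_add a b hab (fun v hv => hg v (hn v hv))] at sg
    rw [Fintype.sum_eq_add a b hab (fun v hv => by rw [hf v (hn v hv), zero_mul]),
      f4_eq_of_add _ _ sf, f4_eq_of_add _ _ sg]
    exact f4_add_self _

open Classical in
theorem ind_sum {W : SimpleGraph V} {u : V} (h : Deg02 W u) :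
    ∑ v, (if W.Adj u v then (1 : ZMod 2) else 0) = 0 := by
  rcases h with h | ⟨a, b, hab, h⟩
  · exact Finset.sum_eq_zero fun v _ => by rw [if_neg (h v)]
  · rw [Fintype.sum_eq_add a b hab, if_pos ((h a).mpr (Or.inl rfl)),
      if_pos ((h b).mpr (Or.inr rfl))]
    · rfl
    · intro v hv
      rw [if_neg]
      intro hadj
      rcases (h v).mp hadj with h1 | h1
      · exact hv.1 h1
      · exact hv.2 h1

open Classical in
/-- The flow on `W` produced by the parity lemma. -/
theorem ext_flow (W F : SimpleGraph V) (hW : ∀ u, Deg02 W u) (c : V → F4)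
    (hz : ∀ (K : F.ConnectedComponent) (Q : W.ConnectedComponent),
      ∑ u, (if W.connectedComponentMk u = Q then
        (if F.connectedComponentMk u = K then c u else 0) else 0) = 0) :
    ∃ (z : F.ConnectedComponent → F4) (x : V → V → F4), (∀ K, z K ≠ 0) ∧
      (∀ u v, x u v = x v u) ∧ (∀ u v, ¬ W.Adj u v → x u v = 0) ∧
      (∀ u, ∑ v, x u v = z (F.connectedComponentMk u) * c u) ∧
      ∀ K, ∑ u, (if F.connectedComponentMk u = K then ∑ v, nrm (x u v) else 0) = 0 := by
  have hX : ∀ K : F.ConnectedComponent,
      IsBd W (fun u => if F.connectedComponentMk u = K then c u else 0) :=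
    fun K => isBd_of_comp f4_add_self W _ (hz K)
  choose X hXs hX0 hXb using hX
  have hfin : Fintype F.ConnectedComponent := Fintype.ofFinite _
  beta_reduce at hXb
  obtain ⟨z, hz0, hzz⟩ := form_parity
    (fun k i j => ∑ u, if F.connectedComponentMk u = k then ∑ v, X i u v * star (X j u v) else 0)
    (by
      intro k i j hi hj
      refine Finset.sum_eq_zero fun u _ => ?_
      split_ifs with hu
      · refine two_cancel (hW u) _ _ (hX0 i u) (hX0 j u) ?_ ?_
        · rw [hXb, if_neg]
          rw [hu]
          exact hi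
        · rw [hXb, if_neg]
          rw [hu]
          exact hj
      · rfl)
    (by
      intro i j
      rw [Finset.sum_comm]
      simp only [Finset.sum_ite_eq, mem_univ, if_true]
      refine sum_symm_zero f4_add_self _ (fun u v => by rw [hXs i u v, hXs j u v]) fun u => ?_
      rw [hX0 i u u (W.irrefl), zero_mul])
    (by
      intro k i j
      rw [star_sum]
      refine Finset.sum_congr rfl fun u _ => ?_
      split_ifs
      · rw [star_sum]
        refine Finset.sum_congr rfl fun v _ => ?_
        rw [star_mul, star_star]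
      · exact star_zero _)
  refine ⟨z, fun u v => ∑ i, z i * X i u v, hz0, fun u v => ?_, fun u v h => ?_, fun u => ?_,
    fun K => ?_⟩
  · exact Finset.sum_congr rfl fun i _ => by rw [hXs i u v]
  · exact Finset.sum_eq_zero fun i _ => by rw [hX0 i u v h, mul_zero]
  · rw [Finset.sum_comm]
    simp only [← Finset.mul_sum, hXb, mul_ite, mul_zero, Finset.sum_ite_eq, mem_univ, if_true]
  · have h1 : ∑ u, (if F.connectedComponentMk u = K then
        ∑ v, (∑ i, z i * X i u v) * star (∑ i, z i * X i u v) else 0) = 0 := by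
      refine Eq.trans ?_ (hzz K)
      simp only [Finset.mul_sum (s := (univ : Finset V))]
      rw [Finset.sum_comm (s := (univ : Finset F.ConnectedComponent))
        (t := (univ : Finset F.ConnectedComponent))]
      symm
      rw [Finset.sum_congr rfl fun j _ => Finset.sum_comm, Finset.sum_comm]
      refine Finset.sum_congr rfl fun u _ => ?_
      split_ifs
      · simp only [Finset.mul_sum, star_sum, Finset.sum_mul, star_mul]
        rw [Finset.sum_congr rfl fun j _ => Finset.sum_comm, Finset.sum_comm]
        refine Finset.sum_congr rfl fun v _ => ?_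
        refine Finset.sum_congr rfl fun j _ => ?_
        refine Finset.sum_congr rfl fun i _ => ?_
        ring
      · simp
    have h2 := congrArg reH h1
    rw [map_zero, map_sum] at h2
    refine Eq.trans ?_ h2
    refine Finset.sum_congr rfl fun u _ => ?_
    split_ifs
    · rw [map_sum]
      rfl
    · rfl

open Classical in
/-- Four even subgraphs covering `W` once and the chosen components of `F` twice. -/
theorem ext_four (W F : SimpleGraph V) (hdisj : ∀ u v, W.Adj u v → ¬ F.Adj u v)
    (hW : ∀ u, Deg02 W u) (p : F.ConnectedComponent → Prop) (g : V → V → F4)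
    (gs : ∀ u v, g u v = g v u) (g0 : ∀ u v, ¬ F.Adj u v → g u v = 0)
    (gne : ∀ u v, F.Adj u v → g u v ≠ 0)
    (hz : ∀ K, p K → ∀ Q : W.ConnectedComponent,
      ∑ u, (if W.connectedComponentMk u = Q then
        (if F.connectedComponentMk u = K then ∑ v, g u v else 0) else 0) = 0) :
    ∃ z : F4 → V → V → ZMod 2, (∀ s u v, z s u v = z s v u) ∧ (∀ s u, ∑ v, z s u v = 0) ∧
      ∀ u v, ((univ : Finset F4).filter (fun s => z s u v = 1)).card =
        if W.Adj u v then 1 else if F.Adj u v ∧ p (F.connectedComponentMk u) then 2 else 0 := by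
  have hk : ∀ u v, F.Adj u v → F.connectedComponentMk u = F.connectedComponentMk v :=
    fun u v h => SimpleGraph.ConnectedComponent.sound h.reachable
  obtain ⟨z, x, hz0, xs, x0, xb, xn⟩ := ext_flow W F hW
    (fun u => if p (F.connectedComponentMk u) then ∑ v, g u v else 0) (by
      intro K Q
      by_cases hK : p K
      · refine Eq.trans ?_ (hz K hK Q)
        refine Finset.sum_congr rfl fun u _ => ?_
        by_cases h1 : F.connectedComponentMk u = K
        · simp only [h1, hK, if_true]
        · simp only [h1, if_false]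
      · refine Finset.sum_eq_zero fun u _ => ?_
        by_cases h1 : F.connectedComponentMk u = K
        · simp only [h1, hK, if_false, ite_self]
        · simp only [h1, if_false, ite_self])
  obtain ⟨y, ys, y0, yb⟩ := isBd_of_comp z2_add_self F (fun u => ∑ v, nrm (x u v)) xn
  -- restricted data
  let y1 : V → V → ZMod 2 := fun u v => if p (F.connectedComponentMk u) then y u v else 0
  let g1 : V → V → F4 := fun u v =>
    if p (F.connectedComponentMk u) then z (F.connectedComponentMk u) * g u v else 0
  have y1s : ∀ u v, y1 u v = y1 v u := by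
    intro u v
    by_cases h : F.Adj u v
    · simp only [y1, hk u v h, ys u v]
    · simp only [y1, y0 u v h, y0 v u (fun h' => h h'.symm), ite_self]
  have g1s : ∀ u v, g1 u v = g1 v u := by
    intro u v
    by_cases h : F.Adj u v
    · simp only [g1, hk u v h, gs u v]
    · simp only [g1, g0 u v h, g0 v u (fun h' => h h'.symm), mul_zero, ite_self]
  have y1b : ∀ u, ∑ v, y1 u v = ∑ v, nrm (x u v) := by
    intro u
    by_cases h : p (F.connectedComponentMk u)
    · simp only [y1, h, if_true, yb]
    · simp only [y1, h, if_false, Finset.sum_const_zero]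
      have h1 : ∑ v, x u v = 0 := by
        rw [xb, if_neg h, mul_zero]
      have h2 := congrArg reH (two_cancel (hW u) _ _ (x0 u) (x0 u) h1 h1)
      rw [map_zero, map_sum] at h2
      exact h2.symm
  have g1b : ∀ u, ∑ v, (x u v + g1 u v) = 0 := by
    intro u
    rw [Finset.sum_add_distrib, xb]
    by_cases h : p (F.connectedComponentMk u)
    · simp only [g1, h, if_true, ← Finset.mul_sum]
      exact f4_add_self _
    · simp only [g1, h, if_false, mul_zero, Finset.sum_const_zero, add_zero]
  refine ⟨fun s u v => y1 u v + (if W.Adj u v then 1 else 0) + nrm (x u v) +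
    nrm s * (if W.Adj u v then 1 else 0) + (star s * (x u v + g1 u v)).im,
    fun s u v => ?_, fun s u => ?_, fun u v => ?_⟩
  · simp only [y1s u v, xs u v, g1s u v, W.adj_comm u v]
  · have h1 : ∑ v, (star s * (x u v + g1 u v)).im = 0 := by
      have h2 := congrArg (fun t => imH (star s * t)) (g1b u)
      simp only [Finset.mul_sum, mul_zero, map_zero, map_sum] at h2
      exact h2
    simp only [Finset.sum_add_distrib, ← Finset.mul_sum, ind_sum (hW u), y1b, h1, mul_zero,
      add_zero]
    exact z2_add_self _
  · by_cases h : W.Adj u v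
    · have hF := hdisj u v h
      have e1 : y1 u v = 0 := by simp only [y1, y0 u v hF, ite_self]
      have e2 : g1 u v = 0 := by simp only [g1, g0 u v hF, mul_zero, ite_self]
      simp only [h, if_true, e1, e2, add_zero]
      have := count_one (x u v)
      simpa only using this
    · simp only [h, if_false, x0 u v h, zero_add]
      by_cases hF : F.Adj u v ∧ p (F.connectedComponentMk u)
      · rw [if_pos hF]
        refine count_two (g1 u v) (y1 u v) ?_
        simp only [g1, hF.2, if_true]
        exact mul_ne_zero (hz0 _) (gne u v hF.1)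
      · rw [if_neg hF]
        have e1 : y1 u v = 0 := by
          by_cases h2 : p (F.connectedComponentMk u)
          · simp only [y1, y0 u v (fun h3 => hF ⟨h3, h2⟩), ite_self]
          · simp only [y1, h2, if_false]
        have e2 : g1 u v = 0 := by
          by_cases h2 : p (F.connectedComponentMk u)
          · simp only [g1, g0 u v (fun h3 => hF ⟨h3, h2⟩), mul_zero, ite_self]
          · simp only [g1, h2, if_false]
        rw [e1, e2]
        exact count_zero

end Pool.Agent.MP_22fc46_co

end

section

namespace Pool.Agent.MP_22fc46_co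

open Finset

variable {V : Type*} [Fintype V]

theorem deg02_of_even {G W : SimpleGraph V} (hle : W ≤ G) {u : V}
    (hG : (G.neighborSet u).ncard = 3) (h : Even (W.neighborSet u).ncard) : Deg02 W u := by
  have h1 : (W.neighborSet u).ncard ≤ 3 := by
    rw [← hG]
    exact Set.ncard_le_ncard (fun v hv => hle hv) (Set.toFinite _)
  have h2 : (W.neighborSet u).ncard = 0 ∨ (W.neighborSet u).ncard = 2 := by
    obtain ⟨k, hk⟩ := h
    omega
  rcases h2 with h2 | h2
  · left
    intro v hv
    rw [Set.ncard_eq_zero (Set.toFinite _)] at h2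
    have : v ∈ W.neighborSet u := hv
    rw [h2] at this
    exact this
  · right
    obtain ⟨a, b, hab, h3⟩ := Set.ncard_eq_two.mp h2
    refine ⟨a, b, hab, fun v => ?_⟩
    have : v ∈ W.neighborSet u ↔ v ∈ ({a, b} : Set V) := by rw [h3]
    simpa using this

omit [Fintype V] in
theorem Deg02.ncard_two {W : SimpleGraph V} {u v : V} (h : Deg02 W u) (hv : W.Adj u v) :
    (W.neighborSet u).ncard = 2 := by
  rcases h with h | ⟨a, b, hab, h⟩
  · exact absurd hv (h v)
  · refine Set.ncard_eq_two.mpr ⟨a, b, hab, ?_⟩
    ext w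
    simpa using h w

/-- The graph of the edges on which `z` takes the value `1`. -/
def supG (G : SimpleGraph V) (z : V → V → ZMod 2) : SimpleGraph V where
  Adj u v := G.Adj u v ∧ z u v = 1 ∧ z v u = 1
  symm := ⟨fun _ _ h => ⟨h.1.symm, h.2.2, h.2.1⟩⟩
  loopless := ⟨fun _ h => G.irrefl h.1⟩

theorem z2_cases : ∀ a : ZMod 2, a ≠ 1 → a = 0 := by decide

theorem supG_even {G : SimpleGraph V} {z : V → V → ZMod 2} (zs : ∀ u v, z u v = z v u)
    (z0 : ∀ u v, z u v = 1 → G.Adj u v) (u : V) (zb : ∑ v, z u v = 0) :
    Even ((supG G z).neighborSet u).ncard := by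
  classical
  have h1 : (supG G z).neighborSet u = ↑((univ : Finset V).filter (fun v => z u v = 1)) := by
    ext v
    simp only [SimpleGraph.mem_neighborSet, coe_filter, mem_univ, true_and, Set.mem_ofPred_eq]
    exact ⟨fun h => h.2.1, fun h => ⟨z0 u v h, h, zs u v ▸ h⟩⟩
  rw [h1, Set.ncard_coe_finset, ← ZMod.natCast_eq_zero_iff_even, ← zb, Finset.card_filter]
  push_cast
  refine Finset.sum_congr rfl fun v _ => ?_
  split_ifs with h
  · exact h.symm
  · exact (z2_cases _ h).symm

/-- A component of `E ≤ G` as a subgraph of `G`. -/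
def compSub {G E : SimpleGraph V} (hle : E ≤ G) (Q : E.ConnectedComponent) : G.Subgraph where
  verts := Q.supp
  Adj u v := u ∈ Q.supp ∧ E.Adj u v
  adj_sub h := hle h.2
  edge_vert h := h.1
  symm := ⟨fun _ _ h => ⟨Q.mem_supp_of_adj_mem_supp h.1 h.2, h.2.symm⟩⟩

omit [Fintype V] in
theorem compSub_connected {G E : SimpleGraph V} (hle : E ≤ G) (Q : E.ConnectedComponent) :
    (compSub hle Q).Connected := by
  rw [SimpleGraph.Subgraph.connected_iff']
  have h := Q.connected_toSimpleGraph
  have : (compSub hle Q).coe = Q.toSimpleGraph := by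
    ext a b
    simp only [compSub]
    exact ⟨fun h => h.2, fun h => ⟨a.2, h⟩⟩
  rw [this]
  exact h

omit [Fintype V] in
theorem exists_adj_of_reach {E : SimpleGraph V} {a b v : V} (hab : E.Adj a b)
    (h : E.Reachable v a) : ∃ w, E.Adj v w := by
  obtain ⟨p⟩ := h
  cases p with
  | nil => exact ⟨b, hab⟩
  | cons h _ => exact ⟨_, h⟩

theorem compSub_deg {G E : SimpleGraph V} (hle : E ≤ G) (hE : ∀ u, Deg02 E u)
    (Q : E.ConnectedComponent) (hQ : ∃ a b, a ∈ Q.supp ∧ E.Adj a b) (v : V)
    (hv : v ∈ (compSub hle Q).verts) : ((compSub hle Q).neighborSet v).ncard = 2 := by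
  obtain ⟨a, b, ha, hab⟩ := hQ
  have h1 : (compSub hle Q).neighborSet v = E.neighborSet v := by
    ext w
    exact ⟨fun h => h.2, fun h => ⟨hv, h⟩⟩
  obtain ⟨w, hw⟩ := exists_adj_of_reach hab (Q.reachable_of_mem_supp hv ha)
  rw [h1]
  exact (hE v).ncard_two hw

theorem eq_compSub {G E : SimpleGraph V} (hle : E ≤ G) (hE : ∀ u, Deg02 E u) (H : G.Subgraph)
    (hc : H.Connected) (hd : ∀ v ∈ H.verts, (H.neighborSet v).ncard = 2)
    (hs : ∀ u v, H.Adj u v → E.Adj u v) :
    ∃ Q : E.ConnectedComponent, (∃ a b, a ∈ Q.supp ∧ E.Adj a b) ∧ compSub hle Q = H := by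
  obtain ⟨a, ha⟩ := hc.nonempty
  have hN : ∀ v ∈ H.verts, H.neighborSet v = E.neighborSet v := by
    intro v hv
    have h1 := hd v hv
    have hne : (H.neighborSet v).Nonempty := by
      rw [← Set.ncard_pos (Set.toFinite _)]
      omega
    obtain ⟨w, hw⟩ := hne
    refine Set.eq_of_subset_of_ncard_le (fun x hx => hs v x hx) ?_ (Set.toFinite _)
    rw [h1, (hE v).ncard_two (hs v w hw)]
  have hclosed : ∀ u v, E.Reachable u v → u ∈ H.verts → v ∈ H.verts := by
    intro u v ⟨p⟩
    induction p with
    | nil => exact id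
    | cons h _ ih =>
      intro hu
      apply ih
      rename_i x y _ _
      have : y ∈ H.neighborSet x := by
        rw [hN x hu]
        exact h
      exact H.edge_vert (SimpleGraph.Subgraph.Adj.symm this)
  have hverts : (E.connectedComponentMk a).supp = H.verts := by
    ext v
    rw [SimpleGraph.ConnectedComponent.mem_supp_iff, SimpleGraph.ConnectedComponent.eq]
    constructor
    · intro h
      exact hclosed a v h.symm ha
    · intro hv
      have h1 := hc.preconnected ⟨v, hv⟩ ⟨a, ha⟩
      exact h1.map (⟨Subtype.val, fun {x y} h => hs _ _ h⟩ : H.coe →g E)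
  refine ⟨E.connectedComponentMk a, ?_, ?_⟩
  · have hne : (H.neighborSet a).Nonempty := by
      rw [← Set.ncard_pos (Set.toFinite _), hd a ha]
      omega
    obtain ⟨w, hw⟩ := hne
    exact ⟨a, w, rfl, hs a w hw⟩
  · ext u v
    · exact Set.ext_iff.mp hverts u
    · change u ∈ (E.connectedComponentMk a).supp ∧ E.Adj u v ↔ H.Adj u v
      rw [hverts]
      constructor
      · rintro ⟨hu, h⟩
        have : v ∈ H.neighborSet u := by
          rw [hN u hu]
          exact h
        exact this
      · intro h
        exact ⟨H.edge_vert h, hs u v h⟩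

/-- A double cover by even subgraphs splits into a double cover by cycles. -/
theorem cdc_of_even {G : SimpleGraph V} {J : Type*} [Finite J] (E : J → SimpleGraph V)
    (hle : ∀ j, E j ≤ G) (hE : ∀ j u, Deg02 (E j) u)
    (h2 : ∀ u v, G.Adj u v → {j | (E j).Adj u v}.ncard = 2) :
    ∃ (m : ℕ) (c : Fin m → G.Subgraph),
      (∀ i, (c i).Connected ∧ ∀ v ∈ (c i).verts, ((c i).neighborSet v).ncard = 2) ∧
      (∀ e ∈ G.edgeSet, {i | e ∈ (c i).edgeSet}.ncard = 2) ∧
      ∀ H : G.Subgraph, H.Connected → (∀ v ∈ H.verts, (H.neighborSet v).ncard = 2) →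
        (∃ j, ∀ u v, H.Adj u v → (E j).Adj u v) → ∃ i, c i = H := by
  let P := {p : Σ j, (E j).ConnectedComponent // ∃ a b, a ∈ p.2.supp ∧ (E p.1).Adj a b}
  have hfin : Finite P := inferInstance
  let eqv : Fin (Nat.card P) ≃ P := (Finite.equivFin P).symm
  refine ⟨Nat.card P, fun i => compSub (hle (eqv i).1.1) (eqv i).1.2, fun i => ?_, ?_, ?_⟩
  · exact ⟨compSub_connected _ _, compSub_deg _ (hE _) _ (eqv i).2⟩
  · intro e he
    induction e using Sym2.ind with
    | _ u v =>
      rw [← h2 u v he]
      refine Set.ncard_congr (fun i _ => (eqv i).1.1) ?_ ?_ ?_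
      · intro i hi
        exact (SimpleGraph.Subgraph.mem_edgeSet.mp hi).2
      · intro i i' hi hi' hii
        apply eqv.injective
        have h3 := (SimpleGraph.Subgraph.mem_edgeSet.mp hi).1
        have h4 := (SimpleGraph.Subgraph.mem_edgeSet.mp hi').1
        generalize eqv i = p at h3 hii
        generalize eqv i' = q at h4 hii
        obtain ⟨⟨j, Q⟩, hp⟩ := p
        obtain ⟨⟨j', Q'⟩, hq⟩ := q
        simp only at hii h3 h4
        subst hii
        have : Q = Q' := by
          rw [SimpleGraph.ConnectedComponent.mem_supp_iff] at h3 h4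
          rw [← h3, ← h4]
        subst this
        rfl
      · intro j hj
        refine ⟨eqv.symm ⟨⟨j, (E j).connectedComponentMk u⟩, u, v, rfl, hj⟩, ?_, ?_⟩
        · simp only [Set.mem_ofPred_eq, SimpleGraph.Subgraph.mem_edgeSet]
          rw [Equiv.apply_symm_apply]
          exact ⟨rfl, hj⟩
        · simp only [Equiv.apply_symm_apply]
  · intro H hc hd ⟨j, hj⟩
    obtain ⟨Q, hQ, hQH⟩ := eq_compSub (hle j) (hE j) H hc hd hj
    refine ⟨eqv.symm ⟨⟨j, Q⟩, hQ⟩, ?_⟩
    simp only
    rw [Equiv.apply_symm_apply]
    exact hQH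

end Pool.Agent.MP_22fc46_co

end

section

namespace Pool.Agent.MP_22fc46_co

open Finset

variable {V : Type*} [Fintype V]

/-- The additive identification of the Klein four-group with `F4`. -/
def toF4 : ZMod 2 × ZMod 2 →+ F4 where
  toFun p := ⟨p.1, p.2⟩
  map_zero' := rfl
  map_add' _ _ := rfl

theorem toF4_ne : ∀ p : ZMod 2 × ZMod 2, p ≠ 0 → toF4 p ≠ 0 := by decide

theorem k4_add_self : ∀ a : ZMod 2 × ZMod 2, a + a = 0 := by decide

open Classical in
/-- Conversion of the cut condition into the form used by `ext_four`. -/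
theorem cut_sum (F : SimpleGraph V) (K : F.ConnectedComponent) (S : Set V)
    (g : Sym2 V → ZMod 2 × ZMod 2)
    (h : ∑ᶠ p ∈ {p : V × V | p.1 ∈ K.supp ∧ F.Adj p.1 p.2 ∧ p.1 ∈ S ∧ p.2 ∉ S},
      g s(p.1, p.2) = 0) :
    ∑ u, (if u ∈ S then (if u ∈ K.supp then
      ∑ v, (if F.Adj u v then toF4 (g s(u, v)) else 0) else 0) else 0) = 0 := by
  have h1 : ∑ u, ∑ v, (if u ∈ K.supp ∧ F.Adj u v ∧ u ∈ S ∧ v ∉ S then g s(u, v) else 0) = 0 := by
    rw [← Fintype.sum_prod_type' (f := fun u v =>
      if u ∈ K.supp ∧ F.Adj u v ∧ u ∈ S ∧ v ∉ S then g s(u, v) else 0), ← Finset.sum_filter]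
    rw [← finsum_mem_coe_finset]
    refine Eq.trans ?_ h
    have : (↑((univ : Finset (V × V)).filter
        (fun p => p.1 ∈ K.supp ∧ F.Adj p.1 p.2 ∧ p.1 ∈ S ∧ p.2 ∉ S)) : Set (V × V)) =
        {p : V × V | p.1 ∈ K.supp ∧ F.Adj p.1 p.2 ∧ p.1 ∈ S ∧ p.2 ∉ S} := by
      ext p
      simp
    rw [this]
  have h2 : ∑ u, ∑ v, (if u ∈ K.supp ∧ F.Adj u v ∧ u ∈ S ∧ v ∈ S then g s(u, v) else 0) = 0 := by
    refine sum_symm_zero k4_add_self _ (fun u v => ?_) (fun u => ?_)
    · have : (u ∈ K.supp ∧ F.Adj u v ∧ u ∈ S ∧ v ∈ S) ↔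
          (v ∈ K.supp ∧ F.Adj v u ∧ v ∈ S ∧ u ∈ S) :=
        ⟨fun h => ⟨K.mem_supp_of_adj_mem_supp h.1 h.2.1, h.2.1.symm, h.2.2.2, h.2.2.1⟩,
          fun h => ⟨K.mem_supp_of_adj_mem_supp h.1 h.2.1, h.2.1.symm, h.2.2.2, h.2.2.1⟩⟩
      simp only [this, Sym2.eq_swap (a := u)]
    · simp
  have h3 := congrArg toF4 (show ∑ u, ∑ v,
      (if u ∈ K.supp ∧ F.Adj u v ∧ u ∈ S ∧ v ∉ S then g s(u, v) else 0) + ∑ u, ∑ v,
      (if u ∈ K.supp ∧ F.Adj u v ∧ u ∈ S ∧ v ∈ S then g s(u, v) else 0) = 0 by
    rw [h1, h2, add_zero])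
  rw [map_zero, ← Finset.sum_add_distrib, map_sum] at h3
  refine Eq.trans (Finset.sum_congr rfl fun u _ => ?_) h3
  rw [← Finset.sum_add_distrib, map_sum]
  by_cases hS : u ∈ S
  · by_cases hK : u ∈ K.supp
    · simp only [hS, hK, if_true, true_and]
      refine Finset.sum_congr rfl fun v _ => ?_
      by_cases ha : F.Adj u v <;> by_cases hv : v ∈ S <;> simp [ha, hv]
    · simp [hK]
  · simp [hS]

open Classical in
/-- Extension of a frame: a family of even subgraphs covering the edges outside `T` once and
the edges of `T` twice. -/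
theorem frame_even {G T : SimpleGraph V} (hG : ∀ v, (G.neighborSet v).ncard = 3) (hTG : T ≤ G)
    {I : Type*} [Fintype I] (W : I → SimpleGraph V) (hWG : ∀ i, W i ≤ G)
    (hWe : ∀ i v, Even ((W i).neighborSet v).ncard)
    (hC : ∀ u v, G.Adj u v → ¬ T.Adj u v → {i | (W i).Adj u v}.ncard = 1)
    (hY : ∀ u v, T.Adj u v → {i | (W i).Adj u v}.ncard = 0 ∨ {i | (W i).Adj u v}.ncard = 2)
    (F : SimpleGraph V) (hFadj : ∀ u v, F.Adj u v ↔ T.Adj u v ∧ ∀ i, ¬ (W i).Adj u v)
    (hK : ∀ K : F.ConnectedComponent, ∃ (i : I) (g : Sym2 V → ZMod 2 × ZMod 2),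
      (∀ u v, u ∈ K.supp → F.Adj u v → g s(u, v) ≠ 0) ∧
      ∀ Q : (W i).ConnectedComponent,
        ∑ᶠ p ∈ {p : V × V | p.1 ∈ K.supp ∧ F.Adj p.1 p.2 ∧
          p.1 ∈ Q.supp ∧ p.2 ∉ Q.supp}, g s(p.1, p.2) = 0) :
    ∃ E : I × F4 → SimpleGraph V, (∀ j, E j ≤ G) ∧ (∀ j u, Deg02 (E j) u) ∧
      ∀ u v, G.Adj u v → {j | (E j).Adj u v}.ncard = if T.Adj u v then 2 else 1 := by
  choose lvl gK hne hsum using hK
  have hk : ∀ u v, F.Adj u v → F.connectedComponentMk u = F.connectedComponentMk v :=
    fun u v h => SimpleGraph.ConnectedComponent.sound h.reachable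
  let g : V → V → F4 := fun u v =>
    if F.Adj u v then toF4 (gK (F.connectedComponentMk u) s(u, v)) else 0
  have hex : ∀ i, ∃ z : F4 → V → V → ZMod 2, (∀ s u v, z s u v = z s v u) ∧
      (∀ s u, ∑ v, z s u v = 0) ∧
      ∀ u v, ((univ : Finset F4).filter (fun s => z s u v = 1)).card =
        if (W i).Adj u v then 1
        else if F.Adj u v ∧ lvl (F.connectedComponentMk u) = i then 2 else 0 := by
    intro i
    refine ext_four (W i) F (fun u v h h' => ((hFadj u v).mp h').2 i h)
      (fun u => deg02_of_even (hWG i) (hG u) (hWe i u)) (fun K => lvl K = i) g ?_ ?_ ?_ ?_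
    · intro u v
      by_cases h : F.Adj u v
      · simp only [g, h, h.symm, if_true, hk u v h, Sym2.eq_swap (a := u)]
      · have h' : ¬ F.Adj v u := fun h' => h h'.symm
        simp only [g, h, h', if_false]
    · intro u v h
      simp only [g, h, if_false]
    · intro u v h
      simp only [g, h, if_true]
      exact toF4_ne _ (hne _ u v rfl h)
    · intro K hKi Q
      subst hKi
      refine Eq.trans (Finset.sum_congr rfl fun u _ => ?_) (cut_sum F K Q.supp (gK K) (hsum K Q))
      simp only [SimpleGraph.ConnectedComponent.mem_supp_iff]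
      by_cases h1 : F.connectedComponentMk u = K
      · simp only [g, h1, if_true]
      · simp only [h1, if_false]
  choose z zs zb zc using hex
  have z0 : ∀ i s u v, z i s u v = 1 → G.Adj u v := by
    intro i s u v h
    by_contra hn
    have h1 := zc i u v
    rw [if_neg (fun h' => hn (hWG i h')), if_neg (fun h' => hn (hTG ((hFadj u v).mp h'.1).1)),
      Finset.card_eq_zero, Finset.filter_eq_empty_iff] at h1
    exact h1 (mem_univ s) h
  have hle : ∀ j : I × F4, supG G (z j.1 j.2) ≤ G := fun j u v h => h.1
  refine ⟨fun j => supG G (z j.1 j.2), hle, fun j u =>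
    deg02_of_even (hle j) (hG u) (supG_even (zs _ _) (z0 _ _) u (zb _ _ u)), fun u v huv => ?_⟩
  have h1 : {j : I × F4 | (supG G (z j.1 j.2)).Adj u v} =
      ↑((univ : Finset (I × F4)).filter (fun j => z j.1 j.2 u v = 1)) := by
    ext j
    simp only [Set.mem_ofPred_eq, coe_filter, mem_univ, true_and]
    exact ⟨fun h => h.2.1, fun h => ⟨huv, h, zs j.1 j.2 u v ▸ h⟩⟩
  have h2 : ((univ : Finset (I × F4)).filter (fun j => z j.1 j.2 u v = 1)).card =
      ∑ i, ((univ : Finset F4).filter (fun s => z i s u v = 1)).card := by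
    simp only [Finset.card_filter]
    rw [Fintype.sum_prod_type]
  have h3 : {i | (W i).Adj u v}.ncard = ∑ i, if (W i).Adj u v then 1 else 0 := by
    rw [← Finset.card_filter, ← Set.ncard_coe_finset]
    congr 1
    ext i
    simp
  rw [h1, Set.ncard_coe_finset, h2]
  simp only [zc]
  by_cases hFuv : F.Adj u v
  · have h4 := (hFadj u v).mp hFuv
    simp only [h4.2, hFuv, h4.1, if_true, if_false, true_and, Finset.sum_ite_eq, mem_univ]
  · simp only [hFuv, false_and, if_false]
    rw [← h3]
    by_cases hT : T.Adj u v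
    · rw [if_pos hT]
      rcases hY u v hT with h5 | h5
      · exfalso
        apply hFuv
        rw [hFadj]
        refine ⟨hT, fun i hi => ?_⟩
        rw [Set.ncard_eq_zero (Set.toFinite _)] at h5
        have : i ∈ {i | (W i).Adj u v} := hi
        rw [h5] at this
        exact this
      · exact h5
    · rw [if_neg hT]
      exact hC u v huv hT

theorem compl_even {G T : SimpleGraph V} (hG : ∀ v, (G.neighborSet v).ncard = 3) (hTG : T ≤ G)
    (hT : ∀ v, (T.neighborSet v).ncard = 1 ∨ (T.neighborSet v).ncard = 3) (u : V) :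
    Even ((G \ T).neighborSet u).ncard := by
  have h1 : (G \ T).neighborSet u = G.neighborSet u \ T.neighborSet u := by
    ext v
    simp
  have hsub : T.neighborSet u ⊆ G.neighborSet u := fun v hv => hTG hv
  rw [h1, Set.ncard_sdiff hsub (Set.toFinite _), hG u]
  rcases hT u with h | h <;> rw [h] <;> decide

open Classical in
theorem cdc_of_cover {G T : SimpleGraph V} (hG : ∀ v, (G.neighborSet v).ncard = 3) (hTG : T ≤ G)
    (hT : ∀ v, (T.neighborSet v).ncard = 1 ∨ (T.neighborSet v).ncard = 3)
    {J : Type*} [Finite J] (E : J → SimpleGraph V) (hle : ∀ j, E j ≤ G)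
    (hE : ∀ j u, Deg02 (E j) u)
    (hc : ∀ u v, G.Adj u v → {j | (E j).Adj u v}.ncard = if T.Adj u v then 2 else 1) :
    ∃ (m : ℕ) (c : Fin m → G.Subgraph),
      (∀ i, (c i).Connected ∧ ∀ v ∈ (c i).verts, ((c i).neighborSet v).ncard = 2) ∧
      (∀ e ∈ G.edgeSet, {i | e ∈ (c i).edgeSet}.ncard = 2) ∧
      ∀ H : G.Subgraph, H.Connected → (∀ v ∈ H.verts, (H.neighborSet v).ncard = 2) →
        (∀ u v, H.Adj u v → ¬ T.Adj u v) → ∃ i, c i = H := by
  obtain ⟨m, c, h1, h2, h3⟩ := cdc_of_even (G := G)
    (fun j : Option J => j.elim (G \ T) E)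
    (by
      intro j
      cases j with
      | none => exact sdiff_le
      | some j => exact hle j)
    (by
      intro j u
      cases j with
      | none => exact deg02_of_even sdiff_le (hG u) (compl_even hG hTG hT u)
      | some j => exact hE j u)
    (by
      intro u v huv
      have h4 := hc u v huv
      by_cases hT' : T.Adj u v
      · rw [if_pos hT'] at h4
        rw [← h4, ← Set.ncard_image_of_injective _ (Option.some_injective J)]
        congr 1
        ext j
        cases j with
        | none => simp [hT']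
        | some j => simp
      · rw [if_neg hT'] at h4
        have h5 : {j : Option J | (j.elim (G \ T) E).Adj u v} =
            insert none (some '' {j | (E j).Adj u v}) := by
          ext j
          cases j with
          | none => simp [hT', huv]
          | some j => simp
        rw [h5, Set.ncard_insert_of_notMem (by simp) (Set.toFinite _),
          Set.ncard_image_of_injective _ (Option.some_injective J), h4])
  refine ⟨m, c, h1, h2, fun H hc hd hl => h3 H hc hd ⟨none, fun u v h => ?_⟩⟩
  exact ⟨H.adj_sub h, hl u v h⟩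

end Pool.Agent.MP_22fc46_co

end
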